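import Pool.Agent.H179R3.HF.Nearly
import Pool.Agent.H126R2.CDC.Decomp

set_option autoImplicit false

/-!
# `1/2`-flow-pairs of graphs that get a nowhere-zero 4-flow by adding an edge

Preparations: one vertex is switched along a circuit.
-/

namespace Pool.Agent.TH399.HP

open Finset Pool.Agent.H160R2.HF Pool.Agent.H179R3.HF

variable {V E : Type} [Fintype V] [Fintype E] [DecidableEq V] [DecidableEq E]

/-- The graph `G` with a new edge `none` from `x` to `y`. -/
def addEdge (G : OrGraph V E) (x y : V) : OrGraph V (Option E) where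
  t := fun g => g.elim x G.t
  h := fun g => g.elim y G.h

section circuits

variable (G : OrGraph V E)

/-- the underlying multigraph -/
def toM : Pool.Agent.H126R2.CDC.MGraph V E := ⟨fun e => s(G.t e, G.h e)⟩

omit [Fintype E] in
lemma toM_deg (D : Finset E) (v : V) : (toM G).deg D v = G.deg D v := by
  unfold Pool.Agent.H126R2.CDC.MGraph.deg OrGraph.deg toM
  simp only [Finset.card_filter]
  rw [← Finset.sum_add_distrib, ← Finset.sum_add_distrib]
  refine Finset.sum_congr rfl fun e _ => ?_
  have h1 : (v ∈ s(G.t e, G.h e)) ↔ (G.t e = v ∨ G.h e = v) := by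
    rw [Sym2.mem_iff]
    constructor
    · rintro (h | h)
      · exact Or.inl h.symm
      · exact Or.inr h.symm
    · rintro (h | h)
      · exact Or.inl h.symm
      · exact Or.inr h.symm
  have h2 : (s(G.t e, G.h e) = s(v, v)) ↔ (G.t e = v ∧ G.h e = v) := by
    rw [Sym2.eq_iff]
    tauto
  rw [if_congr h1 rfl rfl, if_congr h2 rfl rfl]
  by_cases a : G.t e = v <;> by_cases b : G.h e = v <;> simp [a, b]

/-- an edge of an even set lies in an even subset which has degree at most two everywhere -/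
lemma exists_circ (K : Finset E) (hK : ∀ v, Even (G.deg K v)) (a : E) (ha : a ∈ K) :
    ∃ Z ⊆ K, a ∈ Z ∧ ∀ v, G.deg Z v = 0 ∨ G.deg Z v = 2 := by
  obtain ⟨F, hF1, hF2⟩ := (toM G).decompose K.card K rfl (fun v => by rw [toM_deg]; exact hK v)
  have h1 := hF2 a
  rw [if_pos ha] at h1
  have h2 : 0 < F.countP (fun C => a ∈ C) := by omega
  obtain ⟨Z, hZ, haZ⟩ := Multiset.countP_pos.1 h2
  refine ⟨Z, ?_, haZ, fun v => ?_⟩
  · intro e he
    by_contra hne
    have h3 := hF2 e
    rw [if_neg hne] at h3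
    have h4 : 0 < F.countP (fun C => e ∈ C) := Multiset.countP_pos.2 ⟨Z, hZ, he⟩
    omega
  · have h3 := (hF1 Z hZ).2.1 v
    rw [toM_deg] at h3
    exact h3

/-- adding a constant on an even set -/
lemma isZ_add {f : E → K4} (hf : IsZ G f) (Z : Finset E) (hZ : ∀ v, Even (G.deg Z v)) (r : K4) :
    IsZ G (fun g => f g + if g ∈ Z then r else 0) := by
  intro v
  have h1 := hf v
  have h2 : (∑ e with G.t e = v, (if e ∈ Z then r else 0 : K4)) +
      ∑ e with G.h e = v, (if e ∈ Z then r else 0 : K4) = 0 := by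
    have key : ∀ k : E → V, (∑ e with k e = v, (if e ∈ Z then r else 0 : K4)) =
        (Z.filter (fun e => k e = v)).card • r := by
      intro k
      rw [← Finset.sum_filter, Finset.filter_filter, ← Finset.sum_const]
      refine Finset.sum_congr ?_ fun _ _ => rfl
      ext e
      simp only [Finset.mem_filter, Finset.mem_univ, true_and]
      tauto
    rw [key, key, ← add_nsmul]
    obtain ⟨m, hm⟩ := hZ v
    have h3 : (Z.filter (fun e => G.t e = v)).card + (Z.filter (fun e => G.h e = v)).card =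
        m + m := hm
    rw [h3, add_nsmul]
    exact k4_add_self _
  show (∑ e with G.t e = v, (f e + if e ∈ Z then r else 0)) +
    ∑ e with G.h e = v, (f e + if e ∈ Z then r else 0) = 0
  rw [Finset.sum_add_distrib, Finset.sum_add_distrib]
  calc _ = ((∑ e with G.t e = v, f e) + ∑ e with G.h e = v, f e) +
      ((∑ e with G.t e = v, (if e ∈ Z then r else 0 : K4)) +
        ∑ e with G.h e = v, (if e ∈ Z then r else 0 : K4)) := by abel
    _ = 0 := by rw [h1, h2, add_zero]

/-- number of non-loop edges at a vertex -/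
lemma cut_deg (Z : Finset E) (v : V) : (Z ∩ G.cut {v}).card ≤ G.deg Z v := by
  unfold OrGraph.deg
  have h1 : Z ∩ G.cut {v} ⊆ Z.filter (fun e => G.t e = v) ∪ Z.filter (fun e => G.h e = v) := by
    intro e he
    rw [Finset.mem_inter] at he
    have h2 := he.2
    simp only [OrGraph.cut, Finset.mem_filter, Finset.mem_univ, true_and,
      Finset.mem_singleton] at h2
    rw [Finset.mem_union, Finset.mem_filter, Finset.mem_filter]
    by_cases a : G.t e = v
    · exact Or.inl ⟨he.1, a⟩
    · by_cases b : G.h e = v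
      · exact Or.inr ⟨he.1, b⟩
      · exact absurd ⟨fun h => absurd h a, fun h => absurd h b⟩ h2
  exact (Finset.card_le_card h1).trans (Finset.card_union_le _ _)

end circuits

/-- homomorphisms separating a nonzero element -/
lemma exists_homs : ∀ t : K4, t ≠ 0 → ∃ p q : K4 →+ ZMod 2,
    (∀ z, p z = 0 ↔ z = 0 ∨ z = t) ∧ q t ≠ 0 := by
  intro t ht
  have h3 : ∀ t : K4, t ≠ 0 → t = (1, 1) ∨ t = (1, 0) ∨ t = (0, 1) := by decide
  rcases h3 t ht with h | h | h
  · subst h
    refine ⟨piS, piB, ?_, by decide⟩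
    intro z
    show z.1 + z.2 = 0 ↔ _
    revert z
    decide
  · subst h
    refine ⟨piB, AddMonoidHom.fst _ _, ?_, by decide⟩
    intro z
    show z.2 = 0 ↔ _
    revert z
    decide
  · subst h
    refine ⟨AddMonoidHom.fst _ _, piB, ?_, by decide⟩
    intro z
    show z.1 = 0 ↔ _
    revert z
    decide

section switch

variable (G : OrGraph V E) (x y : V)

lemma some_mem_cut (X : Finset V) (e : E) : some e ∈ (addEdge G x y).cut X ↔ e ∈ G.cut X := by
  rw [OrGraph.cut, OrGraph.cut, Finset.mem_filter, Finset.mem_filter]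
  simp only [Finset.mem_univ, true_and]
  exact Iff.rfl

lemma none_mem_cut (X : Finset V) : none ∈ (addEdge G x y).cut X ↔ ¬ (x ∈ X ↔ y ∈ X) := by
  rw [OrGraph.cut, Finset.mem_filter]
  simp only [Finset.mem_univ, true_and]
  exact Iff.rfl

/-- three edges at `v`, all with the value of the new edge -/
def Bad (f : Option E → K4) (v : V) : Prop :=
  (G.cut {v}).card = 3 ∧ ∀ g ∈ G.cut {v}, f (some g) = f none

/-- switching at an end `v` of the new edge -/
lemma switch (hxy : x ≠ y) (f : Option E → K4) (hf : IsZ (addEdge G x y) f) (hnz : ∀ g, f g ≠ 0)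
    (v : V) (hv : v = x ∨ v = y) (hbad : Bad G f v) (σ : K4) (hσ : σ ≠ 0) (hσt : σ ≠ f none) :
    ∃ f' : Option E → K4, IsZ (addEdge G x y) f' ∧ (∀ g, f' g ≠ 0) ∧ ¬ Bad G f' v ∧
      f' none ≠ σ ∧ ∀ g, f g = σ → f' g = σ := by
  classical
  obtain ⟨p, q, hp, -⟩ := exists_homs σ hσ
  set K : Finset (Option E) := univ.filter (fun g => p (f g) ≠ 0) with hKdef
  have hK : ∀ w, Even ((addEdge G x y).deg K w) := fun w => even_deg _ hf p w
  have hmemK : ∀ g, g ∈ K ↔ f g ≠ σ := by
    intro g
    rw [hKdef, Finset.mem_filter]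
    constructor
    · rintro ⟨-, h⟩ h'
      exact h ((hp _).2 (Or.inr h'))
    · intro h
      refine ⟨Finset.mem_univ _, fun h' => ?_⟩
      rcases (hp _).1 h' with h'' | h''
      · exact hnz g h''
      · exact h h''
  obtain ⟨a, ha⟩ : (G.cut {v}).Nonempty := by
    rw [← Finset.card_pos, hbad.1]; norm_num
  have haK : some a ∈ K := by
    rw [hmemK, hbad.2 a ha]
    exact fun h => hσt h.symm
  obtain ⟨Z, hZK, haZ, hZ⟩ := exists_circ (addEdge G x y) K hK (some a) haK
  have hZe : ∀ w, Even ((addEdge G x y).deg Z w) := by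
    intro w
    rcases hZ w with h | h <;> rw [h]
    · exact ⟨0, rfl⟩
    · exact ⟨1, rfl⟩
  set f' : Option E → K4 := fun g => f g + if g ∈ Z then σ else 0 with hf'
  have hin : ∀ g, g ∈ Z → f' g = f g + σ := fun g hg => by simp only [hf', if_pos hg]
  have hout : ∀ g, g ∉ Z → f' g = f g := fun g hg => by simp only [hf', if_neg hg, add_zero]
  have k1 : ∀ a b : K4, a ≠ b → a + b ≠ 0 := by decide
  have k2 : ∀ a b : K4, a ≠ 0 → a + b ≠ b := by decide
  have k3 : ∀ a b : K4, b ≠ 0 → a + b ≠ a := by decide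
  refine ⟨f', isZ_add _ hf Z hZe σ, ?_, ?_, ?_, ?_⟩
  · intro g
    by_cases hg : g ∈ Z
    · rw [hin g hg]
      exact k1 _ _ ((hmemK g).1 (hZK hg))
    · rw [hout g hg]
      exact hnz g
  · rintro ⟨-, hb⟩
    by_cases hn : none ∈ Z
    · -- another edge at `v`
      have hcard : (Z ∩ (addEdge G x y).cut {v}).card ≤ 2 := by
        have h1 := cut_deg (addEdge G x y) Z v
        rcases hZ v with h | h <;> omega
      have hnc : none ∈ (addEdge G x y).cut {v} := by
        rw [none_mem_cut, Finset.mem_singleton, Finset.mem_singleton]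
        rcases hv with h | h
        · subst h
          exact fun h' => hxy (h'.1 rfl).symm
        · subst h
          exact fun h' => hxy (h'.2 rfl)
      obtain ⟨b, hb1, hb2⟩ : ∃ b ∈ G.cut {v}, some b ∉ Z := by
        by_contra hcon
        push Not at hcon
        have h2 : insert none ((G.cut {v}).image some) ⊆ Z ∩ (addEdge G x y).cut {v} := by
          intro g hg
          rw [Finset.mem_insert, Finset.mem_image] at hg
          rcases hg with h | ⟨b, hb1, hb2⟩
          · rw [h]; exact Finset.mem_inter.2 ⟨hn, hnc⟩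
          · rw [← hb2]
            exact Finset.mem_inter.2 ⟨hcon b hb1, (some_mem_cut G x y _ b).2 hb1⟩
        have h3 := Finset.card_le_card h2
        rw [Finset.card_insert_of_notMem (by simp), Finset.card_image_of_injective _
          (Option.some_injective E), hbad.1] at h3
        omega
      have h4 := hb b hb1
      rw [hout _ hb2, hin _ hn, hbad.2 b hb1] at h4
      exact k3 _ _ hσ h4.symm
    · have h4 := hb a ha
      rw [hin _ haZ, hout _ hn, hbad.2 a ha] at h4
      exact k3 _ _ hσ h4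
  · by_cases hn : none ∈ Z
    · rw [hin _ hn]
      exact k2 _ _ (hnz _)
    · rw [hout _ hn]
      exact fun h => hσt h.symm
  · intro g hg
    rw [hout g (fun h => (hmemK g).1 (hZK h) hg)]
    exact hg

/-- both ends of the new edge can be made good -/
lemma good_flow (hxy : x ≠ y) (f : Option E → K4) (hf : IsZ (addEdge G x y) f)
    (hnz : ∀ g, f g ≠ 0) :
    ∃ f' : Option E → K4, IsZ (addEdge G x y) f' ∧ (∀ g, f' g ≠ 0) ∧ ¬ Bad G f' x ∧
      ¬ Bad G f' y := by
  classical
  have k0 : ∀ t : K4, ∃ σ : K4, σ ≠ 0 ∧ σ ≠ t := by decide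
  -- one end is bad, the other one is not
  have one : ∀ (f : Option E → K4), IsZ (addEdge G x y) f → (∀ g, f g ≠ 0) →
      ∀ v w, (v = x ∨ v = y) → Bad G f v → ¬ Bad G f w →
      ∃ f' : Option E → K4, IsZ (addEdge G x y) f' ∧ (∀ g, f' g ≠ 0) ∧ ¬ Bad G f' v ∧
        ¬ Bad G f' w := by
    intro f hf hnz v w hv hbv hbw
    by_cases h3 : (G.cut {w}).card = 3
    · obtain ⟨g, hg1, hg2⟩ : ∃ g ∈ G.cut {w}, f (some g) ≠ f none := by
        by_contra hcon
        push Not at hcon
        exact hbw ⟨h3, hcon⟩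
      obtain ⟨f', h1, h2, h4, h5, h6⟩ := switch G x y hxy f hf hnz v hv hbv (f (some g))
        (hnz _) hg2
      refine ⟨f', h1, h2, h4, fun hb => ?_⟩
      have h7 := hb.2 g hg1
      rw [h6 _ rfl] at h7
      exact h5 h7.symm
    · obtain ⟨σ, hσ1, hσ2⟩ := k0 (f none)
      obtain ⟨f', h1, h2, h4, -, -⟩ := switch G x y hxy f hf hnz v hv hbv σ hσ1 hσ2
      exact ⟨f', h1, h2, h4, fun hb => h3 hb.1⟩
  by_cases hbx : Bad G f x
  · by_cases hby : Bad G f y
    · obtain ⟨σ, hσ1, hσ2⟩ := k0 (f none)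
      obtain ⟨f1, h1, h2, h4, -, -⟩ := switch G x y hxy f hf hnz x (Or.inl rfl) hbx σ hσ1 hσ2
      by_cases hby1 : Bad G f1 y
      · obtain ⟨f', a1, a2, a3, a4⟩ := one f1 h1 h2 y x (Or.inr rfl) hby1 h4
        exact ⟨f', a1, a2, a4, a3⟩
      · exact ⟨f1, h1, h2, h4, hby1⟩
    · exact one f hf hnz x y (Or.inl rfl) hbx hby
  · by_cases hby : Bad G f y
    · obtain ⟨f', a1, a2, a3, a4⟩ := one f hf hnz y x (Or.inr rfl) hby hbx
      exact ⟨f', a1, a2, a4, a3⟩
    · exact ⟨f, hf, hnz, hbx, hby⟩

end switch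

end Pool.Agent.TH399.HP
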