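import Pool.Agent.TH399.HP.AddEdge

set_option autoImplicit false

/-!
# `1/2`-flow-pairs of graphs that get a nowhere-zero 4-flow by adding an edge
-/

namespace Pool.Agent.TH399.HP

open Finset Pool.Agent.H160R2.HF Pool.Agent.H179R3.HF

variable {V E : Type} [Fintype V] [Fintype E] [DecidableEq V] [DecidableEq E]

lemma deg_image (G : OrGraph V E) (x y : V) (D : Finset E) (v : V) :
    (addEdge G x y).deg (D.image some) v = G.deg D v := by
  unfold OrGraph.deg
  rw [Finset.filter_image, Finset.filter_image,
    Finset.card_image_of_injective _ (Option.some_injective E),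
    Finset.card_image_of_injective _ (Option.some_injective E)]
  rfl

/-- the main theorem, for `ℤ₂ × ℤ₂`-flows -/
theorem pair_of_added (G : OrGraph V E) (hB : G.Bridgeless) (x y : V) (f : Option E → K4)
    (hf : IsZ (addEdge G x y) f) (hnz : ∀ g, f g ≠ 0)
    (hgood : ∀ X : Finset V, x ∈ X → y ∉ X → (G.cut X).card = 3 →
      ∃ g ∈ G.cut X, f (some g) ≠ f none) :
    ∃ φ₂ φ₄ : E → ℤ, G.IsHalfFlowPair φ₂ φ₄ := by
  classical
  have hb := G.cut_card_ne_one hB
  obtain ⟨p, q, hp, hq⟩ := exists_homs (f none) (hnz none)
  obtain ⟨κ₀, hκ1, hκ2⟩ := eulerian (addEdge G x y).t (addEdge G x y).h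
    (univ.filter (fun g => q (f g) ≠ 0)) (fun v => even_deg _ hf q v)
  set F : Finset E := univ.filter (fun g => p (f (some g)) ≠ 0) with hFdef
  have hF' : (univ.filter (fun g : Option E => p (f g) ≠ 0)) = F.image some := by
    ext g
    cases g with
    | none =>
      simp only [Finset.mem_filter, Finset.mem_univ, true_and, Finset.mem_image, reduceCtorEq,
        and_false, exists_false, iff_false, not_not]
      exact (hp _).2 (Or.inr rfl)
    | some e =>
      simp [hFdef]
  have hF : ∀ v, Even (G.deg F v) := by
    intro v
    have h1 := even_deg _ hf p v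
    rw [hF', deg_image] at h1
    exact h1
  have hκn : κ₀ none = 1 ∨ κ₀ none = -1 := (hκ1 none).1 (by
    simp only [Finset.mem_filter, Finset.mem_univ, true_and]
    exact hq)
  obtain ⟨φ₂, φ₄, h, -⟩ := exists_pair_gen G hb F hF (fun g => κ₀ (some g))
    (by
      intro g
      by_cases hg : some g ∈ univ.filter (fun g => q (f g) ≠ 0)
      · rcases (hκ1 (some g)).1 hg with h | h
        · left; exact h
        · right; left; exact h
      · right; right; exact (hκ1 (some g)).2 hg)
    (by
      intro g hg
      simp only [hFdef, Finset.mem_filter, Finset.mem_univ, true_and, not_not] at hg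
      have h2 : f (some g) = f none := by
        rcases (hp _).1 hg with h | h
        · exact absurd h (hnz _)
        · exact h
      have h3 : some g ∈ univ.filter (fun g => q (f g) ≠ 0) := by
        simp only [Finset.mem_filter, Finset.mem_univ, true_and]
        rw [h2]
        exact hq
      rcases (hκ1 (some g)).1 h3 with h | h
      · show κ₀ (some g) ≠ 0
        rw [h]; decide
      · show κ₀ (some g) ≠ 0
        rw [h]; decide)
    (by
      intro X
      have h1 : ∑ v ∈ X, net (addEdge G x y).t (addEdge G x y).h κ₀ v = 0 :=
        Finset.sum_eq_zero fun v _ => hκ2 v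
      rw [net_sum, Fintype.sum_option] at h1
      rw [net_sum]
      have h2 : (∑ e : E, ((if (addEdge G x y).t (some e) ∈ X then κ₀ (some e) else 0) -
          (if (addEdge G x y).h (some e) ∈ X then κ₀ (some e) else 0))) =
          ∑ e : E, ((if G.t e ∈ X then κ₀ (some e) else 0) -
          (if G.h e ∈ X then κ₀ (some e) else 0)) := rfl
      have h3 : ((if (addEdge G x y).t none ∈ X then κ₀ none else 0) -
          (if (addEdge G x y).h none ∈ X then κ₀ none else 0)) =
          (if x ∈ X then κ₀ none else 0) - (if y ∈ X then κ₀ none else 0) := rfl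
      rw [h2, h3] at h1
      have h4 : ∑ e : E, ((if G.t e ∈ X then κ₀ (some e) else 0) -
          (if G.h e ∈ X then κ₀ (some e) else 0)) =
          (if y ∈ X then κ₀ none else 0) - (if x ∈ X then κ₀ none else 0) := by linarith
      rw [h4, abs_le]
      rcases hκn with h | h <;> rw [h] <;> split_ifs <;> constructor <;> norm_num)
    (by
      intro X hX
      by_cases hex : ∃ g ∈ G.cut X, f (some g) ≠ f none
      · obtain ⟨g, hg, hg1⟩ := hex
        refine ⟨g, Finset.mem_inter.2 ⟨hg, ?_⟩⟩
        simp only [hFdef, Finset.mem_filter, Finset.mem_univ, true_and]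
        intro h0
        rcases (hp _).1 h0 with h | h
        · exact hnz _ h
        · exact hg1 h
      · exfalso
        push Not at hex
        by_cases hx : x ∈ X
        · by_cases hy : y ∈ X
          · -- not separated
            have hcut : (addEdge G x y).cut X = (G.cut X).image some := by
              ext g
              cases g with
              | none => rw [none_mem_cut]; simp [hx, hy]
              | some e => rw [some_mem_cut]; simp
            have h1 := hf.cut_sum _ X
            rw [hcut, Finset.sum_image (fun _ _ _ _ h => Option.some_injective E h),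
              Finset.sum_congr rfl hex, Finset.sum_const, hX] at h1
            have k : ∀ t : K4, 3 • t = 0 → t = 0 := by decide
            exact hnz _ (k _ h1)
          · obtain ⟨g, hg, hg1⟩ := hgood X hx hy hX
            exact hg1 (hex g hg)
        · by_cases hy : y ∈ X
          · obtain ⟨g, hg, hg1⟩ := hgood Xᶜ (by simpa using hx) (by simpa using hy)
              (by rw [compl_cut]; exact hX)
            rw [compl_cut] at hg
            exact hg1 (hex g hg)
          · have hcut : (addEdge G x y).cut X = (G.cut X).image some := by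
              ext g
              cases g with
              | none => rw [none_mem_cut]; simp [hx, hy]
              | some e => rw [some_mem_cut]; simp
            have h1 := hf.cut_sum _ X
            rw [hcut, Finset.sum_image (fun _ _ _ _ h => Option.some_injective E h),
              Finset.sum_congr rfl hex, Finset.sum_const, hX] at h1
            have k : ∀ t : K4, 3 • t = 0 → t = 0 := by decide
            exact hnz _ (k _ h1))
  exact ⟨φ₂, φ₄, h⟩

/-- graphs which get a nowhere-zero 4-flow by adding the edge `x y` -/
theorem main (G : OrGraph V E) (hB : G.Bridgeless) (x y : V) (hxy : x ≠ y)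
    (hflow : ∃ ψ : Option E → ℤ, (addEdge G x y).IsKFlow 4 ψ ∧ ∀ g, ψ g ≠ 0)
    (hcut : ∀ X : Finset V, x ∈ X → y ∉ X → (G.cut X).card = 3 →
      G.cut X = G.cut {x} ∨ G.cut X = G.cut {y}) :
    ∃ φ₂ φ₄ : E → ℤ, G.IsHalfFlowPair φ₂ φ₄ := by
  obtain ⟨ψ, hψ, hψ0⟩ := hflow
  obtain ⟨f₀, hf₀, hz⟩ := exists_K4 _ hψ
  obtain ⟨f, hf, hnz, hbx, hby⟩ := good_flow G x y hxy f₀ hf₀ (fun g h => hψ0 g ((hz g).1 h))
  refine pair_of_added G hB x y f hf hnz fun X hx hy h3 => ?_
  by_contra hcon
  push Not at hcon
  rcases hcut X hx hy h3 with h | h
  · rw [h] at h3 hcon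
    exact hbx ⟨h3, hcon⟩
  · rw [h] at h3 hcon
    exact hby ⟨h3, hcon⟩

end Pool.Agent.TH399.HP
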